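import Mathlib

/-!
A counterexample of degree 13 to the real Jacobian conjecture in the plane.

With `t = x y^2 - x - y` and `b = x t`, the map
`(x, y) ↦ ((6 b + 4) t + y, (2 b + 1) ((18 b + 5) t - 6 b (2 b + 1) y))`
has degree 13, everywhere positive Jacobian, and sends `(0, 0)` and `(1/2, 1)`
to the origin.
-/

namespace Pool.Agent.Results.MP_95cf14_ag.RealJacobianDegree

open MvPolynomial

/-- The polynomial self-map `(p, q)` of the real plane. -/
noncomputable def planeMap (p q : MvPolynomial (Fin 2) ℝ) :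
    (Fin 2 → ℝ) → ℝ × ℝ :=
  fun v => (eval v p, eval v q)

/-- The Jacobian `p_x q_y - p_y q_x`. -/
noncomputable def jacobian (p q : MvPolynomial (Fin 2) ℝ) : MvPolynomial (Fin 2) ℝ :=
  pderiv 0 p * pderiv 1 q - pderiv 1 p * pderiv 0 q

/-- The degree of the map `(p, q)`. -/
noncomputable def mapDegree (p q : MvPolynomial (Fin 2) ℝ) : ℕ :=
  max p.totalDegree q.totalDegree

/-- `(p, q)` is a counterexample to the real Jacobian conjecture. -/
def IsCounterexample (p q : MvPolynomial (Fin 2) ℝ) : Prop :=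
  (∀ v : Fin 2 → ℝ, eval v (jacobian p q) ≠ 0) ∧ ¬ Function.Injective (planeMap p q)

/-- The least degree of a counterexample. -/
noncomputable def dMin : ℕ :=
  sInf {d : ℕ | ∃ p q : MvPolynomial (Fin 2) ℝ, IsCounterexample p q ∧ mapDegree p q = d}

/-- `t = x y^2 - x - y` -/
noncomputable def tt : MvPolynomial (Fin 2) ℝ := X 0 * X 1 ^ 2 - X 0 - X 1

/-- `b = x t` -/
noncomputable def bb : MvPolynomial (Fin 2) ℝ := X 0 * tt

/-- first component -/
noncomputable def pp : MvPolynomial (Fin 2) ℝ := (C 6 * bb + C 4) * tt + X 1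

/-- second component -/
noncomputable def qq : MvPolynomial (Fin 2) ℝ :=
  (C 2 * bb + C 1) * ((C 18 * bb + C 5) * tt - C 6 * bb * (C 2 * bb + C 1) * X 1)

/-- The real-variable inequality behind positivity of the Jacobian. -/
theorem key_pos (x y t b : ℝ) (ht : t = x * y ^ 2 - x - y) (hb : b = x * t) (J : ℝ)
    (hA : J = ((2 * b + 1) * (6 * b + 1) * y - 6 * (3 * b + 1) * t) ^ 2
      + (288 * b ^ 3 + 324 * b ^ 2 + 128 * b + 18) * t ^ 2
      + 5 * ((2 * b + 1) * (6 * b + 1)) ^ 2)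
    (hB : 24 * b ^ 2 * J = (12 * b * ((2 * b + 1) * (6 * b + 1)) * y
      - (96 * b ^ 2 + 52 * b + 5) * t) ^ 2
      - (10368 * b ^ 5 + 16704 * b ^ 4 + 12288 * b ^ 3 + 4288 * b ^ 2 + 640 * b + 25) * t ^ 2) :
    0 < J := by
  rcases le_or_gt (-(2 / 5)) b with h | h
  · have hg : 0 < 288 * b ^ 3 + 324 * b ^ 2 + 128 * b + 18 := by
      nlinarith [mul_nonneg (by linarith : (0:ℝ) ≤ b + 2 / 5) (sq_nonneg (b + 29 / 80)),
        mul_nonneg (by linarith : (0:ℝ) ≤ b + 2 / 5) (sq_nonneg b)]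
    by_cases ht0 : t = 0
    · have hb0 : b = 0 := by rw [hb, ht0, mul_zero]
      rw [hA, ht0, hb0]
      nlinarith [sq_nonneg y]
    · have h2 : 0 < t ^ 2 := by positivity
      rw [hA]
      nlinarith [sq_nonneg ((2 * b + 1) * (6 * b + 1) * y - 6 * (3 * b + 1) * t),
        sq_nonneg ((2 * b + 1) * (6 * b + 1)), mul_pos hg h2]
  · have hb0 : b ≠ 0 := by intro h0; rw [h0] at h; linarith
    have ht0 : t ≠ 0 := by rintro rfl; exact hb0 (by rw [hb, mul_zero])
    have h2 : 0 < t ^ 2 := by positivity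
    have hb2 : 0 < b ^ 2 := by positivity
    obtain ⟨d, hd, rfl⟩ : ∃ d : ℝ, 0 < d ∧ b = -(2 / 5) - d := ⟨-(2 / 5) - b, by linarith, by ring⟩
    have hG : 10368 * (-(2 / 5) - d) ^ 5 + 16704 * (-(2 / 5) - d) ^ 4
        + 12288 * (-(2 / 5) - d) ^ 3 + 4288 * (-(2 / 5) - d) ^ 2
        + 640 * (-(2 / 5) - d) + 25 < 0 := by
      nlinarith [pow_pos hd 2, pow_pos hd 3, pow_pos hd 4, pow_pos hd 5]
    have h3 : 0 < 24 * (-(2 / 5) - d) ^ 2 * J := by
      rw [hB]
      nlinarith [sq_nonneg (12 * (-(2 / 5) - d) * ((2 * (-(2 / 5) - d) + 1)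
        * (6 * (-(2 / 5) - d) + 1)) * y
        - (96 * (-(2 / 5) - d) ^ 2 + 52 * (-(2 / 5) - d) + 5) * t), mul_pos (neg_pos.mpr hG) h2]
    by_contra hJ
    push Not at hJ
    nlinarith [mul_nonneg hb2.le (neg_nonneg.mpr hJ)]

theorem eval_tt (v : Fin 2 → ℝ) : eval v tt = v 0 * v 1 ^ 2 - v 0 - v 1 := by
  simp [tt]

theorem eval_bb (v : Fin 2 → ℝ) : eval v bb = v 0 * eval v tt := by
  simp [bb]

theorem eval_pp (v : Fin 2 → ℝ) :
    eval v pp = (6 * eval v bb + 4) * eval v tt + v 1 := by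
  simp [pp]

theorem eval_qq (v : Fin 2 → ℝ) :
    eval v qq = (2 * eval v bb + 1) * ((18 * eval v bb + 5) * eval v tt
      - 6 * eval v bb * (2 * eval v bb + 1) * v 1) := by
  simp [qq]

theorem dx_tt (v : Fin 2 → ℝ) : eval v (pderiv 0 tt) = v 1 ^ 2 - 1 := by
  simp [tt, Derivation.leibniz, Derivation.leibniz_pow, pderiv_X]

theorem dy_tt (v : Fin 2 → ℝ) : eval v (pderiv 1 tt) = 2 * v 0 * v 1 - 1 := by
  simp [tt, Derivation.leibniz, Derivation.leibniz_pow, pderiv_X]
  ring

theorem dx_bb (v : Fin 2 → ℝ) :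
    eval v (pderiv 0 bb) = eval v tt + v 0 * (v 1 ^ 2 - 1) := by
  simp [bb, Derivation.leibniz, pderiv_X, dx_tt]
  ring

theorem dy_bb (v : Fin 2 → ℝ) :
    eval v (pderiv 1 bb) = v 0 * (2 * v 0 * v 1 - 1) := by
  simp [bb, Derivation.leibniz, pderiv_X, dy_tt]

theorem dx_pp (v : Fin 2 → ℝ) : eval v (pderiv 0 pp) =
    6 * eval v (pderiv 0 bb) * eval v tt + (6 * eval v bb + 4) * eval v (pderiv 0 tt) := by
  simp [pp, Derivation.leibniz, pderiv_X]
  ring

theorem dy_pp (v : Fin 2 → ℝ) : eval v (pderiv 1 pp) =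
    6 * eval v (pderiv 1 bb) * eval v tt + (6 * eval v bb + 4) * eval v (pderiv 1 tt) + 1 := by
  simp [pp, Derivation.leibniz, pderiv_X]
  ring

theorem dx_qq (v : Fin 2 → ℝ) : eval v (pderiv 0 qq) =
    2 * eval v (pderiv 0 bb) * ((18 * eval v bb + 5) * eval v tt
      - 6 * eval v bb * (2 * eval v bb + 1) * v 1)
    + (2 * eval v bb + 1) * (18 * eval v (pderiv 0 bb) * eval v tt
      + (18 * eval v bb + 5) * eval v (pderiv 0 tt)
      - 6 * eval v (pderiv 0 bb) * (4 * eval v bb + 1) * v 1) := by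
  simp [qq, Derivation.leibniz, pderiv_X]
  ring

theorem dy_qq (v : Fin 2 → ℝ) : eval v (pderiv 1 qq) =
    2 * eval v (pderiv 1 bb) * ((18 * eval v bb + 5) * eval v tt
      - 6 * eval v bb * (2 * eval v bb + 1) * v 1)
    + (2 * eval v bb + 1) * (18 * eval v (pderiv 1 bb) * eval v tt
      + (18 * eval v bb + 5) * eval v (pderiv 1 tt)
      - 6 * eval v (pderiv 1 bb) * (4 * eval v bb + 1) * v 1
      - 6 * eval v bb * (2 * eval v bb + 1)) := by
  simp [qq, Derivation.leibniz, pderiv_X]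
  ring

/-- The Jacobian of the example is everywhere positive. -/
theorem jacobian_pos (v : Fin 2 → ℝ) : 0 < eval v (jacobian pp qq) := by
  have hJ : eval v (jacobian pp qq) = eval v (pderiv 0 pp) * eval v (pderiv 1 qq)
      - eval v (pderiv 1 pp) * eval v (pderiv 0 qq) := by
    simp [jacobian]
  refine key_pos (v 0) (v 1) (eval v tt) (eval v bb) (eval_tt v) (eval_bb v) _ ?_ ?_
  · rw [hJ, dx_pp, dy_pp, dx_qq, dy_qq, dx_bb, dy_bb, dx_tt, dy_tt, eval_bb, eval_tt]
    ring
  · rw [hJ, dx_pp, dy_pp, dx_qq, dy_qq, dx_bb, dy_bb, dx_tt, dy_tt, eval_bb, eval_tt]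
    ring

theorem degree_tt : tt.totalDegree ≤ 3 := by
  unfold tt
  refine (totalDegree_sub _ _).trans (max_le ((totalDegree_sub _ _).trans (max_le ?_ ?_)) ?_)
  · refine (totalDegree_mul _ _).trans ?_
    have := totalDegree_pow (X 1 : MvPolynomial (Fin 2) ℝ) 2
    rw [totalDegree_X] at this ⊢
    omega
  · rw [totalDegree_X]; omega
  · rw [totalDegree_X]; omega

theorem degree_bb : bb.totalDegree ≤ 4 := by
  unfold bb
  refine (totalDegree_mul _ _).trans ?_
  have := degree_tt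
  rw [totalDegree_X]
  omega

theorem degree_affine (m c : ℝ) : (C m * bb + C c : MvPolynomial (Fin 2) ℝ).totalDegree ≤ 4 := by
  refine (totalDegree_add _ _).trans (max_le ((totalDegree_mul _ _).trans ?_) ?_)
  · have h2 := degree_bb
    rw [totalDegree_C]
    omega
  · rw [totalDegree_C]
    omega

theorem degree_pp : pp.totalDegree ≤ 7 := by
  unfold pp
  refine (totalDegree_add _ _).trans (max_le ((totalDegree_mul _ _).trans ?_) ?_)
  · exact add_le_add (degree_affine 6 4) degree_tt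
  · rw [totalDegree_X]; omega

theorem degree_qq : qq.totalDegree ≤ 13 := by
  unfold qq
  have h1 := degree_affine 2 1
  have h2 := degree_affine 18 5
  have h3 := degree_tt
  have h4 := degree_bb
  have h5 : (C 6 * bb : MvPolynomial (Fin 2) ℝ).totalDegree ≤ 4 := by
    refine (totalDegree_mul _ _).trans ?_
    rw [totalDegree_C]
    omega
  have h6 : (C 6 * bb * (C 2 * bb + C 1) : MvPolynomial (Fin 2) ℝ).totalDegree ≤ 8 :=
    (totalDegree_mul _ _).trans (by omega)
  have h7 : (C 6 * bb * (C 2 * bb + C 1) * X 1 : MvPolynomial (Fin 2) ℝ).totalDegree ≤ 9 := by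
    refine (totalDegree_mul _ _).trans ?_
    rw [totalDegree_X]
    omega
  have h8 : ((C 18 * bb + C 5) * tt : MvPolynomial (Fin 2) ℝ).totalDegree ≤ 9 :=
    (totalDegree_mul _ _).trans (by omega)
  have h9 := (totalDegree_sub ((C 18 * bb + C 5) * tt : MvPolynomial (Fin 2) ℝ)
    (C 6 * bb * (C 2 * bb + C 1) * X 1)).trans (max_le h8 h7)
  exact (totalDegree_mul _ _).trans (by omega)

theorem not_injective : ¬ Function.Injective (planeMap pp qq) := by
  intro h
  have h1 : planeMap pp qq ![0, 0] = planeMap pp qq ![1 / 2, 1] := by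
    simp [planeMap, eval_pp, eval_qq, eval_bb, eval_tt]
    norm_num
  have h2 := congrFun (h h1) 1
  simp at h2

theorem example_isCounterexample : IsCounterexample pp qq :=
  ⟨fun v => (jacobian_pos v).ne', not_injective⟩

/-- There is a counterexample `(p, q)` to the real Jacobian conjecture with `deg p ≤ 7` and
`deg q ≤ 13`; hence the least degree of a counterexample is at most `13`. -/
theorem result :
    (∃ p q : MvPolynomial (Fin 2) ℝ, IsCounterexample p q ∧
      p.totalDegree ≤ 7 ∧ q.totalDegree ≤ 13) ∧ dMin ≤ 13 := by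
  refine ⟨⟨pp, qq, example_isCounterexample, degree_pp, degree_qq⟩, ?_⟩
  have h : mapDegree pp qq ≤ 13 := max_le (degree_pp.trans (by norm_num)) degree_qq
  have h' : mapDegree pp qq ∈ {d : ℕ | ∃ p q : MvPolynomial (Fin 2) ℝ,
      IsCounterexample p q ∧ mapDegree p q = d} := ⟨pp, qq, example_isCounterexample, rfl⟩
  exact (Nat.sInf_le h').trans h

end Pool.Agent.Results.MP_95cf14_ag.RealJacobianDegree
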